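import Mathlib
import Pool.Agent.H.MP_6e06a5_co.D

set_option autoImplicit false

namespace Pool.Agent.Results.MP_6e06a5_co.Odd

open Pool.Agent.H.MP_6e06a5_co

/-- The toroidal grid. -/
def grid (L : ℕ) : SimpleGraph (ZMod L × ZMod L) :=
  SimpleGraph.fromRel fun u v => v = (u.1 + 1, u.2) ∨ v = (u.1, u.2 + 1)

/-- The number of edges of `J` at `v`. -/
def deg {L : ℕ} (J : Finset (Sym2 (ZMod L × ZMod L))) (v : ZMod L × ZMod L) : ℕ :=
  (J.filter (v ∈ ·)).card

def IsJoin {L : ℕ} (D : Finset (ZMod L × ZMod L)) (J : Finset (Sym2 (ZMod L × ZMod L))) : Prop :=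
  (∀ e ∈ J, e ∈ (grid L).edgeSet) ∧ ∀ v, Odd (deg J v) ↔ v ∈ D

theorem result (L : ℕ) (h3 : 3 ≤ L) (hL : Odd L) (D : Finset (ZMod L × ZMod L))
    (hD : Even D.card) :
    ∃ J, IsJoin D J ∧ (∀ K, IsJoin D K → J.card ≤ K.card) ∧ ∀ v ∈ D, deg J v = 1 := by
  have : NeZero L := ⟨by omega⟩
  have : Fact (1 < L) := ⟨by omega⟩
  let d : ZMod 4 → ZMod L × ZMod L := (![(1, 0), (0, 1), (-1, 0), (0, -1)] : Fin 4 → _)
  have two : (1 : ZMod L) ≠ -1 := by
    have : Fact (2 < L) := ⟨by omega⟩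
    exact ZMod.neg_one_ne_one.symm
  have h : Dir d := by
    constructor
    · intro k
      fin_cases k
      · change ((-1, 0) : ZMod L × ZMod L) = -(1, 0); simp
      · change ((0, -1) : ZMod L × ZMod L) = -(0, 1); simp
      · change ((1, 0) : ZMod L × ZMod L) = -(-1, 0); simp
      · change ((0, 1) : ZMod L × ZMod L) = -(0, -1); simp
    · intro k j e
      fin_cases k <;> fin_cases j <;> first | rfl | (simp [d, two, two.symm] at e)
  have hE : EE d = (grid L).edgeSet := by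
    ext e
    induction e using Sym2.ind with
    | h u v =>
      simp only [grid, SimpleGraph.mem_edgeSet, SimpleGraph.fromRel_adj]
      constructor
      · rintro ⟨w, k, hk⟩
        have ne : u ≠ v := by simpa using h.notDiag _ ⟨w, k, hk⟩
        refine ⟨ne, ?_⟩
        rcases Sym2.eq_iff.1 hk with ⟨rfl, rfl⟩ | ⟨rfl, rfl⟩ <;> fin_cases k <;>
          simp [d, Prod.ext_iff]
      · rintro ⟨-, (rfl | rfl) | (rfl | rfl)⟩
        · exact ⟨u, 0, by rw [ed]; congr 1; change _ = u + (1, 0); ext <;> simp⟩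
        · exact ⟨u, 1, by rw [ed]; congr 1; change _ = u + (0, 1); ext <;> simp⟩
        · exact ⟨v, 0, by rw [ed, Sym2.eq_swap]; congr 1; change _ = v + (1, 0); ext <;> simp⟩
        · exact ⟨v, 1, by rw [ed, Sym2.eq_swap]; congr 1; change _ = v + (0, 1); ext <;> simp⟩
  have hJ : ∀ J, IsJoin D J ↔ Pool.Agent.H.MP_6e06a5_co.Sub (EE d) J ∧ bd J = chi D := by
    intro J
    rw [IsJoin, Pool.Agent.H.MP_6e06a5_co.Sub, hE, funext_iff]
    refine and_congr_right fun _ => forall_congr' fun v => ?_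
    rw [bd, Finset.sum_boole, chi, ← ZMod.natCast_eq_one_iff_odd, deg]
    generalize ((_ : ℕ) : ZMod 2) = z
    by_cases hv : v ∈ D <;> simp only [hv, if_true, if_false, iff_true, iff_false]
    revert z; decide
  obtain ⟨J, j1, j2, j3, j4⟩ := main h L hL (fun v => by ext <;> simp) (fun v =>
    ⟨v.1.val, v.2.val, by
      change _ = _ • ((1, 0) : ZMod L × ZMod L) + _ • ((0, 1) : ZMod L × ZMod L)
      ext <;> simp⟩) D hD
  exact ⟨J, (hJ J).2 ⟨j1, j2⟩, fun K hK => j3 K ((hJ K).1 hK).1 ((hJ K).1 hK).2, j4⟩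

end Pool.Agent.Results.MP_6e06a5_co.Odd
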